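import Pool.Agent.Run7.h246.MC.Gen

set_option autoImplicit false

/-!
# Record prime gaps at all entries of products of powers of matrices modulo primes

Write `f(x) = log x (log₂ x)² log₄ x / (log₃ x)²` for the record size of prime-free intervals.  An integer `z`
is a centre modulo `p` if every integer within `κ f(p)` of `z` has a prime factor at most `p ^ δ`; so a centre
`z > p ^ δ + κ f(p)` is in the middle of a record prime-free interval.

Consider the products `A_1 ^ e_1 ⋯ A_r ^ e_r` of powers of invertible `k × k` matrices modulo a large prime `p`,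
with exponents `|e_i| ≤ m`, not all zero, and `n` linear functionals `tr (H_j · )` of such products; functionals of
the same product are supposed to be linearly independent.  Examples: all entries of all these products (for
`r = 1`, all entries of the powers `A, A², …, A ^ m` and of their inverses), or the traces of all these products.
In every box `∏ (M_j, M_j + L_j]` with `p ^ δ ≤ L_j ≤ p` of volume at least `p ^ (n - 1/2 + δ)` we find these `n`
values simultaneously, represented by centres, for a proportion of at least `p ^ (-δ) ∏ (L_j / p)` of all the tuples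
`(A_1, …, A_r)`.

The proof: scalar matrices act on the tuples, the products of different exponents have different weights under a
suitable torus; so the exponential sums over all tuples are averages of sums of Laurent polynomials of one
variable, which are bounded by Weil's theorem (proved in `Pool.Agent.Run7.h90.RW` for all rational functions over
prime fields), except for the tuples with `tr (H A_1 ^ e_1 ⋯ A_r ^ e_r) = 0` for some fixed `H ≠ 0`; these are
counted by lines through idempotent matrices.  Then the criterion of helper647 (`N647.FG`) applies.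
-/

namespace Pool.Agent.Results.MP_b0c12c_nt.MatrixPowersModP

open Finset Matrix

/-- The record scale `f(x) = log x (log₂ x)² log₄ x / (log₃ x)²` (iterated natural logarithms). -/
noncomputable def f (x : ℝ) : ℝ :=
  Real.log x * (Real.log (Real.log x)) ^ 2 * Real.log (Real.log (Real.log (Real.log x))) /
    (Real.log (Real.log (Real.log x))) ^ 2

/-- Every integer within `κ f(p)` of `z` has a prime factor at most `p ^ δ`. -/
def Centre (κ δ : ℝ) (p : ℕ) (z : ℤ) : Prop :=
  ∀ m : ℤ, |(m : ℝ) - z| ≤ κ * f p → ∃ l : ℕ, l.Prime ∧ (l : ℝ) ≤ (p : ℝ) ^ δ ∧ (l : ℤ) ∣ m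

/-- The product `A_1 ^ e_1 ⋯ A_r ^ e_r` (in this order). -/
def Word {r k p : ℕ} (A : Fin r → GL (Fin k) (ZMod p)) (e : Fin r → ℤ) : GL (Fin k) (ZMod p) :=
  (List.ofFn fun i => A i ^ e i).prod

/-- For every exponent vector `v` the matrices `H j` with `e j = v` are linearly independent. -/
def Independent {n r k p : ℕ} (e : Fin n → Fin r → ℤ)
    (H : Fin n → Matrix (Fin k) (Fin k) (ZMod p)) : Prop :=
  ∀ α : Fin n → ZMod p, α ≠ 0 → ∃ v, ∑ j with e j = v, α j • H j ≠ 0

/-- **Record prime gaps at the entries of products of powers of matrices modulo primes.** -/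
theorem result (n r k m : ℕ) (hn : 1 ≤ n) (δ : ℝ) (hδ : 0 < δ) (hδ1 : δ ≤ 1) :
    ∃ κ : ℝ, 0 < κ ∧ ∃ p₀ : ℕ, ∀ p : ℕ, p₀ ≤ p → p.Prime →
      ∀ e : Fin n → Fin r → ℤ, (∀ j, e j ≠ 0 ∧ ∀ i, |e j i| ≤ m) →
      ∀ H : Fin n → Matrix (Fin k) (Fin k) (ZMod p), Independent e H →
      ∀ (M : Fin n → ℤ) (L : Fin n → ℕ), (∀ j, (p : ℝ) ^ δ ≤ L j ∧ L j ≤ p) →
        (p : ℝ) ^ ((n : ℝ) - 1 / 2 + δ) ≤ ∏ j, (L j : ℝ) →
      (p : ℝ) ^ (-δ) * ((Nat.card (GL (Fin k) (ZMod p)) : ℝ) ^ r * ∏ j, ((L j : ℝ) / p)) ≤
        ({A : Fin r → GL (Fin k) (ZMod p) | ∀ j, ∃ z : ℤ, M j < z ∧ z ≤ M j + L j ∧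
          (z : ZMod p) = trace (H j * ((Word A (e j) : GL (Fin k) (ZMod p)) :
            Matrix (Fin k) (Fin k) (ZMod p))) ∧ Centre κ δ p z}.ncard : ℝ) := by
  obtain ⟨κ, hκ, p₀, h⟩ := Pool.Agent.Run7.h246.MC.gen_main n r k m hn δ hδ hδ1
  exact ⟨κ, hκ, p₀, fun p hpp hp e he H hH M L hL hvol => h p hp hpp e he H hH M L hL hvol⟩

end Pool.Agent.Results.MP_b0c12c_nt.MatrixPowersModP
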