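import Pool.Agent.Run7.h931.RS.Three
import Pool.Agent.Run7.h931.RS.Final

/-!
# Cramér's law, with the constant one, for almost all sequences of shifts

Cramér's conjecture says that `m = (1 + o(1)) log^2 N` is the largest `m` for which some `n + 1, ..., n + m` with `n ≤ N`
are all composite. Here the shifts `1, ..., m` are replaced by `s 0, ..., s (m - 1)`, where every `s j` runs through a window
`(b j, b j + q]` of its own (for instance consecutive windows), and the law holds for almost all choices.

Method: second moments over the vectors of shifts. The pairs of `n`, `n'` contribute the exponential of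
`∑_j (number of v in the window with n + v, n' + v both prime) / q`, so that the singular series of prime pairs would give an
exponentially large second moment; the shifts which are not prime to the product `W` of the small primes are therefore left out
of the weights, and `n` is taken from the multiples of `W`. What remains is an exponential moment of
`∏_{p | h, p > w} p / (p - 1)`, which is `1 + o(1)` as `w → ∞` by a doubly exponential bound for its large values. The prime
pairs enter with the correct constant for almost all `h = n' - n` (an average form of the Hardy-Littlewood conjecture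
of the strength `log^(-A)`), and with an upper bound sieve for the other `h`.
-/

set_option autoImplicit false

namespace Pool.Agent.Results.MP_b0c12c_nt.RandomShifts

open Finset

/-- The integers `1 ≤ n ≤ N` for which no `n + s j`, `j < m`, is a prime. -/
def composite {m : ℕ} (N : ℕ) (s : Fin m → ℕ) : Finset ℕ := (Icc 1 N).filter fun n => ∀ j, ¬ (n + s j).Prime

open Classical in
/-- The largest `k ≤ m` for which there is an integer `1 ≤ n ≤ N` such that none of the `n + s j`, `0 ≤ j < k`, is a prime. -/
noncomputable def longest {m : ℕ} (N : ℕ) (s : Fin m → ℕ) : ℕ :=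
  Nat.findGreatest (fun k => ∃ n, 1 ≤ n ∧ n ≤ N ∧ ∀ j : Fin m, (j : ℕ) < k → ¬ (n + s j).Prime) m

/-- The vectors of shifts: `s j` is in the window `(b j, b j + q]`. There are `q ^ m` of them. -/
def shifts {m : ℕ} (q : ℕ) (b : Fin m → ℕ) : Finset (Fin m → ℕ) := Fintype.piFinset fun j => Ioc (b j) (b j + q)

/-- Let `T`, `a` and `ε > 0` be given; there is `δ > 0` such that for all large `N`, all `N / log^a N ≤ q ≤ N`, all `m` and all
windows `(b j, b j + q]`, `j < m`, with `b j ≤ T N` the following holds for all but at most `ε q^m` of the `q^m` vectors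
`s` of shifts `s j ∈ (b j, b j + q]`.

**(1)** If `m ≥ (1 + ε) log^2 N`, then the largest `k ≤ m` for which some `n ≤ N` has all `n + s 0, ..., n + s (k - 1)` composite (not
prime) is between `(1 - ε) log^2 N` and `(1 + ε) log^2 N`.

**(2)** If `m ≥ (1 + ε) log^2 N`, then there is no `n ≤ N` with `n + s j` composite for all `j < m`; here the exceptions are at
most `N^(-ε/2) q^m`. If `m ≤ (1 - ε) log^2 N`, then the number of these `n ≤ N` is between `N^(1 - m/log^2 N - ε)` and
`N^(1 - m/log^2 N + ε)`.

**(3)** If `m ≤ δ log^2 N`, then the number of these `n ≤ N` is `(1 ± ε) N exp(-m/log N)`. -/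
theorem result (T a : ℕ) (ε : ℝ) (hε : 0 < ε) : ∃ δ : ℝ, 0 < δ ∧ ∃ N₀ : ℕ, ∀ N : ℕ, N₀ ≤ N → ∀ q : ℕ,
    (N : ℝ) ≤ q * Real.log N ^ a → q ≤ N → ∀ (m : ℕ) (b : Fin m → ℕ), (∀ j, b j ≤ T * N) →
      ((1 + ε) * Real.log N ^ 2 ≤ m →
        (((shifts q b).filter fun s => ε < |(longest N s : ℝ) / Real.log N ^ 2 - 1|).card : ℝ) ≤ ε * (q : ℝ) ^ m) ∧
      ((1 + ε) * Real.log N ^ 2 ≤ m →
        (((shifts q b).filter fun s => (composite N s).Nonempty).card : ℝ) ≤ (N : ℝ) ^ (-(ε / 2)) * (q : ℝ) ^ m) ∧
      ((m : ℝ) ≤ (1 - ε) * Real.log N ^ 2 →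
        (((shifts q b).filter fun s => ¬ ((N : ℝ) ^ (1 - m / Real.log N ^ 2 - ε) ≤ (composite N s).card ∧
          ((composite N s).card : ℝ) ≤ (N : ℝ) ^ (1 - m / Real.log N ^ 2 + ε))).card : ℝ) ≤ ε * (q : ℝ) ^ m) ∧
      ((m : ℝ) ≤ δ * Real.log N ^ 2 →
        (((shifts q b).filter fun s => ε * (N * Real.exp (-(m / Real.log N))) <
          |((composite N s).card : ℝ) - N * Real.exp (-(m / Real.log N))|).card : ℝ) ≤ ε * (q : ℝ) ^ m) := by
  obtain ⟨δ, hδ, h3⟩ := Pool.Agent.Run7.h931.RS.part_three T a ε hε
  obtain ⟨n0, h⟩ := Filter.eventually_atTop.1 ((Pool.Agent.Run7.h931.RS.law T a ε hε).and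
    ((Pool.Agent.Run7.h931.RS.part_one T a ε hε).and ((Pool.Agent.Run7.h931.RS.part_two T a ε hε).and h3)))
  refine ⟨δ, hδ, n0, fun N hN q hq hqN m b hb => ?_⟩
  obtain ⟨g0, g1, g2, g3⟩ := h N hN
  exact ⟨g0 q hq hqN m b hb, g1 q hq hqN m b hb, g2 q hq hqN m b hb, g3 q hq hqN m b hb⟩

end Pool.Agent.Results.MP_b0c12c_nt.RandomShifts
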