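import Pool.Agent.Run7.h90.RW.Fam

set_option autoImplicit false

/-!
# Record prime gaps at the values of rational functions, and at inverses, modulo primes

Write `f(x) = log x (log₂ x)² log₄ x / (log₃ x)²` for the record size of prime-free intervals.  An integer `z`
is a centre modulo `p` if every integer within `κ f(p)` of `z` has a prime factor at most `p ^ δ`; so a centre
`z > p ^ δ + κ f(p)` is in the middle of a record prime-free interval.

(1) Let `R_1, …, R_r` be rational functions over `F_p`, of degree at most `p ^ (δ/4)`, such that no nontrivial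
linear combination of them is constant.  Every box `∏ (M_j, M_j + L_j]` with `p ^ δ ≤ L_j ≤ p` of volume at least
`p ^ (r - 1/2 + δ)` is such that for at least `p ^ (1 - δ) ∏ (L_j / p)` residues `x` modulo `p` all the values
`R_1(x), …, R_r(x)` are represented by centres in the box.

(2) Inverses: for distinct residues `c_1, …, c_k` modulo `p` there are at least `p ^ (1 - δ) (L / p) ∏ (L_j / p)`
integers `n ∈ (M, M + L]` such that `n` and the inverses of `n + c_1, …, n + c_k` modulo `p` are (represented in the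
prescribed intervals by) centres, if `L ∏ L_j ≥ p ^ (k + 1/2 + δ)`.

The proof uses Weil's bound for the exponential sums of arbitrary rational functions over prime fields, proved
in `Pool.Agent.Run7.h90.RW`, and the criterion of helper647 (`N647.FG`).
-/

namespace Pool.Agent.Results.MP_b0c12c_nt.RationalFunctionsModP

open Finset Polynomial

/-- The record scale `f(x) = log x (log₂ x)² log₄ x / (log₃ x)²` (iterated natural logarithms). -/
noncomputable def f (x : ℝ) : ℝ :=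
  Real.log x * (Real.log (Real.log x)) ^ 2 * Real.log (Real.log (Real.log (Real.log x))) /
    (Real.log (Real.log (Real.log x))) ^ 2

/-- Every integer within `κ f(p)` of `z` has a prime factor at most `p ^ δ`. -/
def Centre (κ δ : ℝ) (p : ℕ) (z : ℤ) : Prop :=
  ∀ m : ℤ, |(m : ℝ) - z| ≤ κ * f p → ∃ l : ℕ, l.Prime ∧ (l : ℝ) ≤ (p : ℝ) ^ δ ∧ (l : ℤ) ∣ m

/-- No nontrivial linear combination of the rational functions `a j / b j` is constant. -/
def Independent {p r : ℕ} (a b : Fin r → (ZMod p)[X]) : Prop :=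
  ∀ α : Fin r → ZMod p, α ≠ 0 → ∀ c : ZMod p,
    ∑ j, C (α j) * a j * ∏ i ∈ univ.erase j, b i ≠ C c * ∏ j, b j

lemma inverses_independent {p k : ℕ} [Fact p.Prime] (c : Fin k → ZMod p)
    (hc : Function.Injective c) :
    Independent (Fin.cons X (fun _ => 1) : Fin (k + 1) → (ZMod p)[X])
      (Fin.cons 1 (fun j => X + C (c j)) : Fin (k + 1) → (ZMod p)[X]) := by
  intro α hα c' h
  set a : Fin (k + 1) → (ZMod p)[X] := Fin.cons X (fun _ => 1) with ha
  set b : Fin (k + 1) → (ZMod p)[X] := Fin.cons 1 (fun j => X + C (c j)) with hb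
  have hb0 : b 0 = 1 := rfl
  have hbs : ∀ j : Fin k, b j.succ = X + C (c j) := fun j => rfl
  have ha0 : a 0 = X := rfl
  have has : ∀ j : Fin k, a j.succ = 1 := fun j => rfl
  have hbev : ∀ j : Fin k, (b j.succ).eval (-(c j)) = 0 := by
    intro j
    rw [hbs]
    simp
  have h1 : ∀ j : Fin k, α j.succ = 0 := by
    intro j
    have h2 := congrArg (fun q => q.eval (-(c j))) h
    simp only [eval_finsetSum, eval_mul, eval_C, eval_prod] at h2
    rw [prod_eq_zero (mem_univ j.succ) (hbev j), mul_zero, sum_eq_single j.succ] at h2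
    · rw [has, eval_one, mul_one] at h2
      rcases mul_eq_zero.1 h2 with h3 | h3
      · exact h3
      · exfalso
        rw [prod_eq_zero_iff] at h3
        obtain ⟨i, hi, hi0⟩ := h3
        rw [mem_erase] at hi
        rcases Fin.eq_zero_or_eq_succ i with h4 | ⟨i', h4⟩
        · rw [h4, hb0, eval_one] at hi0
          exact one_ne_zero hi0
        · rw [h4, hbs, eval_add, eval_X, eval_C] at hi0
          apply hi.1
          rw [h4, hc (neg_add_eq_zero.1 hi0)]
    · intro i _ hi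
      rw [prod_eq_zero (mem_erase.2 ⟨hi.symm, mem_univ j.succ⟩) (hbev j), mul_zero]
    · intro h3
      exact absurd (mem_univ _) h3
  have h2 : C (α 0) * X = C c' := by
    rw [Fin.sum_univ_succ] at h
    simp only [h1, C_0, zero_mul, sum_const_zero, add_zero] at h
    rw [← mul_prod_erase univ b (mem_univ 0), hb0, one_mul, ha0] at h
    refine mul_right_cancel₀ ?_ h
    rw [prod_ne_zero_iff]
    intro i hi
    rcases Fin.eq_zero_or_eq_succ i with h4 | ⟨i', h4⟩
    · rw [h4, hb0]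
      exact one_ne_zero
    · rw [h4, hbs]
      exact X_add_C_ne_zero _
  have h3 : α 0 = 0 := by
    have := congrArg (fun q => q.coeff 1) h2
    simpa [coeff_C] using this
  apply hα
  funext i
  rcases Fin.eq_zero_or_eq_succ i with h4 | ⟨i', h4⟩
  · rw [h4, h3]
    rfl
  · rw [h4, h1]
    rfl

/-- **Record prime gaps at the values of rational functions, and at inverses, modulo primes.** -/
theorem result (δ : ℝ) (hδ : 0 < δ) (hδ1 : δ ≤ 1) :
    (∀ r : ℕ, 1 ≤ r → ∃ κ : ℝ, 0 < κ ∧ ∃ p₀ : ℕ, ∀ p : ℕ, p₀ ≤ p → p.Prime →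
      ∀ D : ℕ, (D : ℝ) ≤ (p : ℝ) ^ (δ / 4) →
      ∀ a b : Fin r → (ZMod p)[X], (∀ j, (a j).natDegree ≤ D) → (∀ j, (b j).natDegree ≤ D) →
      (∀ j, b j ≠ 0) → Independent a b →
      ∀ (M : Fin r → ℤ) (L : Fin r → ℕ), (∀ j, (p : ℝ) ^ δ ≤ L j) → (∀ j, L j ≤ p) →
        (p : ℝ) ^ ((r : ℝ) - 1 / 2 + δ) ≤ ∏ j, (L j : ℝ) →
      (p : ℝ) ^ (1 - δ) * ∏ j, ((L j : ℝ) / p) ≤
        ({x : ZMod p | ∀ j, (b j).eval x ≠ 0 ∧ ∃ z : ℤ, M j < z ∧ z ≤ M j + L j ∧
          (z : ZMod p) * (b j).eval x = (a j).eval x ∧ Centre κ δ p z}.ncard : ℝ)) ∧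
    (∀ k : ℕ, ∃ κ : ℝ, 0 < κ ∧ ∃ p₀ : ℕ, ∀ p : ℕ, p₀ ≤ p → p.Prime →
      ∀ c : Fin k → ZMod p, Function.Injective c →
      ∀ (M : ℤ) (L : ℕ) (M' : Fin k → ℤ) (L' : Fin k → ℕ), (p : ℝ) ^ δ ≤ L → L ≤ p →
        (∀ j, (p : ℝ) ^ δ ≤ L' j) → (∀ j, L' j ≤ p) →
        (p : ℝ) ^ ((k : ℝ) + 1 / 2 + δ) ≤ L * ∏ j, (L' j : ℝ) →
      (p : ℝ) ^ (1 - δ) * ((L / p) * ∏ j, ((L' j : ℝ) / p)) ≤
        ({n : ℤ | M < n ∧ n ≤ M + L ∧ Centre κ δ p n ∧
          ∀ j, ∃ m : ℤ, M' j < m ∧ m ≤ M' j + L' j ∧ (m : ZMod p) * ((n : ZMod p) + c j) = 1 ∧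
            Centre κ δ p m}.ncard : ℝ)) := by
  refine ⟨fun r hr => Pool.Agent.Run7.h90.RW.fam_main r hr δ hδ hδ1, fun k => ?_⟩
  obtain ⟨κ, hκ, p₀, h⟩ := Pool.Agent.Run7.h90.RW.fam_main (k + 1) (by omega) δ hδ hδ1
  refine ⟨κ, hκ, max p₀ 2, ?_⟩
  intro p hpp hp c hc M L M' L' hL hLp hL' hLp' hvol
  have : Fact p.Prime := ⟨hp⟩
  have hp1 : (1 : ℝ) < p := by exact_mod_cast hp.one_lt
  have h1 := h p ((le_max_left _ _).trans hpp) hp 1
    (by
      rw [Nat.cast_one]
      exact Real.one_le_rpow hp1.le (by positivity))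
    (Fin.cons X (fun _ => 1)) (Fin.cons 1 (fun j => X + C (c j)))
    (by
      intro j
      rcases Fin.eq_zero_or_eq_succ j with h4 | ⟨i', h4⟩
      · rw [h4, Fin.cons_zero]
        exact natDegree_X_le
      · rw [h4, Fin.cons_succ]
        simp)
    (by
      intro j
      rcases Fin.eq_zero_or_eq_succ j with h4 | ⟨i', h4⟩
      · rw [h4, Fin.cons_zero]
        simp
      · rw [h4, Fin.cons_succ]
        simp)
    (by
      intro j
      rcases Fin.eq_zero_or_eq_succ j with h4 | ⟨i', h4⟩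
      · rw [h4, Fin.cons_zero]
        exact one_ne_zero
      · rw [h4, Fin.cons_succ]
        exact X_add_C_ne_zero _)
    (inverses_independent c hc) (Fin.cons M M') (Fin.cons L L')
    (by
      intro j
      rcases Fin.eq_zero_or_eq_succ j with h4 | ⟨i', h4⟩
      · rw [h4, Fin.cons_zero]
        exact hL
      · rw [h4, Fin.cons_succ]
        exact hL' i')
    (by
      intro j
      rcases Fin.eq_zero_or_eq_succ j with h4 | ⟨i', h4⟩
      · rw [h4, Fin.cons_zero]
        exact hLp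
      · rw [h4, Fin.cons_succ]
        exact hLp' i')
    (by
      rw [Fin.prod_univ_succ]
      simp only [Fin.cons_zero, Fin.cons_succ]
      push_cast
      have e : ((k : ℝ) + 1) - 1 / 2 + δ = (k : ℝ) + 1 / 2 + δ := by ring
      rw [e]
      exact hvol)
  rw [Fin.prod_univ_succ] at h1
  simp only [Fin.cons_zero, Fin.cons_succ] at h1
  refine h1.trans ?_
  have hfin : ({n : ℤ | M < n ∧ n ≤ M + L ∧ Centre κ δ p n ∧
          ∀ j, ∃ m : ℤ, M' j < m ∧ m ≤ M' j + L' j ∧ (m : ZMod p) * ((n : ZMod p) + c j) = 1 ∧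
            Centre κ δ p m}).Finite := by
    apply (Set.finite_Ioc M (M + L)).subset
    rintro n ⟨h2, h3, -⟩
    exact ⟨h2, h3⟩
  have hsub : {x : ZMod p | ∀ j : Fin (k + 1),
      ((Fin.cons 1 (fun j => X + C (c j)) : Fin (k + 1) → (ZMod p)[X]) j).eval x ≠ 0 ∧
      ∃ z : ℤ, (Fin.cons M M' : Fin (k + 1) → ℤ) j < z ∧
        z ≤ (Fin.cons M M' : Fin (k + 1) → ℤ) j + (Fin.cons L L' : Fin (k + 1) → ℕ) j ∧
        (z : ZMod p) * ((Fin.cons 1 (fun j => X + C (c j)) : Fin (k + 1) → (ZMod p)[X]) j).eval x =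
          ((Fin.cons X (fun _ => 1) : Fin (k + 1) → (ZMod p)[X]) j).eval x ∧ Centre κ δ p z} ⊆
      (fun n : ℤ => (n : ZMod p)) '' {n : ℤ | M < n ∧ n ≤ M + L ∧ Centre κ δ p n ∧
          ∀ j, ∃ m : ℤ, M' j < m ∧ m ≤ M' j + L' j ∧ (m : ZMod p) * ((n : ZMod p) + c j) = 1 ∧
            Centre κ δ p m} := by
    intro x hx
    obtain ⟨-, n, hn1, hn2, hn3, hn4⟩ := hx 0
    simp only [Fin.cons_zero, eval_one, mul_one, eval_X] at hn1 hn2 hn3
    refine ⟨n, ⟨hn1, hn2, hn4, fun j => ?_⟩, hn3⟩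
    obtain ⟨-, m, hm1, hm2, hm3, hm4⟩ := hx j.succ
    simp only [Fin.cons_succ, eval_add, eval_X, eval_C, eval_one] at hm1 hm2 hm3
    exact ⟨m, hm1, hm2, by rw [hn3]; exact hm3, hm4⟩
  have h2 := (Set.ncard_le_ncard hsub (hfin.image _)).trans (Set.ncard_image_le hfin)
  refine le_trans ?_ (Nat.cast_le.2 h2)
  exact le_rfl

end Pool.Agent.Results.MP_b0c12c_nt.RationalFunctionsModP
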