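import Pool.Agent.Run7.h914.Sys

set_option autoImplicit false

/-!
# Record prime gaps at the solutions of systems of Waring-Vinogradov type modulo primes

Write `f(x) = log x (log₂ x)² log₄ x / (log₃ x)²` for the record size of the prime-free intervals.

(1) Let `p` be a large prime, `n > 2 k`, and let `P_ij` (`i ≤ n`, `j ≤ k`) be ANY polynomials over the field with
`p` elements, of degrees at most `p ^ (δ / (50 n))`, such that for every `i` no nontrivial linear combination of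
`P_i1, …, P_ik` is of the form `a X + c`.  Consider the solutions modulo `p` of the system

  `P_1j(x_1) + … + P_nj(x_n) ≡ b_j   (j = 1, …, k)`.

Every box `∏ (M_i, M_i + L_i]` with sides between `p ^ δ` and `p` and of volume `V ≥ p ^ (n / 2 + k + δ)` contains
at least `p ^ (-δ) V / p ^ k` integer points `z` which are solutions such that every integer within `κ f(p)` of
`z₁ ^ (e₁) ⋯ z_n ^ (e_n)` has a prime factor `≤ p ^ δ`, for all coprime exponents `e_j ≤ E`.  So all these numbers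
are in the middle of prime-free intervals of record length.  (About `V / p ^ k` points of the box are solutions.)

(2) In particular, for `n ≥ 3` and `m ≥ 2` every residue modulo every large prime `p` is the sum of `n` `m`-th powers
of positive integers up to `p ^ (1 / 2 + 1 / n + δ)` which are all (with all their coprime monomials) in the middle
of record prime gaps.

Proof.  The exponential sums over the solutions are, by the orthogonality of the characters, means of products of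
`n` sums of one variable, which are `O(√p)` by Weil's bound (here from our bound `exp_rat` for rational functions),
as the relevant combinations `∑ t_j P_ij + α_i X` are not constant for `t ≠ 0`; for `t = 0` the product vanishes if
`α ≠ 0`.  Then the joint covering sieve of the starting library `N39.RG`.
-/

namespace Pool.Agent.Results.MP_b0c12c_nt.SeparatedSystems

open Polynomial

/-- The record scale `f(x) = log x (log₂ x)² log₄ x / (log₃ x)²` (iterated natural logarithms). -/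
noncomputable def f (x : ℝ) : ℝ :=
  Real.log x * (Real.log (Real.log x)) ^ 2 * Real.log (Real.log (Real.log (Real.log x))) /
    (Real.log (Real.log (Real.log x))) ^ 2

/-- Every integer within `κ f(p)` of `n` has a prime factor at most `p ^ δ`. -/
def Centre (κ δ : ℝ) (p : ℕ) (n : ℤ) : Prop :=
  ∀ m : ℤ, |(m : ℝ) - n| ≤ κ * f p → ∃ l : ℕ, l.Prime ∧ (l : ℝ) ≤ (p : ℝ) ^ δ ∧ (l : ℤ) ∣ m

/-- `z` is in the box, and all its monomials with coprime exponents `≤ E` are centres. -/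
def GoodPoint {r : ℕ} (E : ℕ) (κ δ : ℝ) (p : ℕ) (M : Fin r → ℤ) (L : Fin r → ℕ) (z : Fin r → ℤ) : Prop :=
  (∀ j, M j < z j ∧ z j ≤ M j + L j) ∧
    ∀ e : Fin r → ℕ, (∀ j, e j ≤ E) → Finset.univ.gcd e = 1 → Centre κ δ p (∏ j, z j ^ e j)

/-- The general theorem. -/
theorem main (n k E : ℕ) (hn : 2 * k < n) (δ : ℝ) (hδ : 0 < δ) (hδ1 : δ ≤ 1) :
    ∃ κ : ℝ, 0 < κ ∧ ∃ p₀ : ℕ, ∀ (p : ℕ) [Fact p.Prime], p₀ ≤ p →
      ∀ (d : ℕ) (P : Fin n → Fin k → (ZMod p)[X]) (b : Fin k → ZMod p), (d : ℝ) ≤ (p : ℝ) ^ (δ / (50 * n)) →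
      (∀ i j, (P i j).natDegree ≤ d) →
      (∀ i, ∀ (t : Fin k → ZMod p) (a c : ZMod p), ∑ j, C (t j) * P i j = C a * X + C c → t = 0) →
      ∀ (M : Fin n → ℤ) (L : Fin n → ℕ), (∀ j, (p : ℝ) ^ δ ≤ L j ∧ L j ≤ p) →
        (p : ℝ) ^ ((n : ℝ) / 2 + k + δ) ≤ ∏ j, (L j : ℝ) →
      (p : ℝ) ^ (-δ) * ((∏ j, (L j : ℝ)) / (p : ℝ) ^ k) ≤
        (Set.ncard {z : Fin n → ℤ | GoodPoint E κ δ p M L z ∧
          ∀ j, ∑ i, (P i j).eval (z i : ZMod p) = b j} : ℝ) := by
  obtain ⟨κ, hκ, p₀, h⟩ := Run7.h914.rec_sys n k E hn δ hδ hδ1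
  refine ⟨κ, hκ, p₀, ?_⟩
  intro p _ hpp d P b hd hP hind M L hL hV
  have hp : p.Prime := Fact.out
  have hp0 : (0 : ℝ) < p := by exact_mod_cast hp.pos
  have key := h p hpp d P b hd hP hind M L hL hV
  have hv : (p : ℝ) ^ ((n : ℝ) - k) * ∏ j, ((L j : ℝ) / p) = (∏ j, (L j : ℝ)) / (p : ℝ) ^ k := by
    rw [Finset.prod_div_distrib, Finset.prod_const, Finset.card_univ, Fintype.card_fin, Real.rpow_sub hp0,
      Real.rpow_natCast, Real.rpow_natCast]
    field_simp
  rw [hv] at key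
  refine key.trans ?_
  rw [Nat.cast_le]
  refine Set.ncard_le_ncard ?_ ?_
  · rintro z ⟨h1, h2, h3⟩
    refine ⟨⟨h1, fun e he hg m hm => h3 e he hg m ?_⟩, h2⟩
    push_cast at hm
    exact hm
  · refine (Set.Finite.pi' (fun j => Set.finite_Ioc (M j) (M j + L j))).subset ?_
    intro z hz j
    exact hz.1.1 j

/-- **Record prime gaps at the solutions of systems of Waring-Vinogradov type modulo primes.** -/
theorem result (n E : ℕ) (δ : ℝ) (hδ : 0 < δ) (hδ1 : δ ≤ 1) :
    (∀ k : ℕ, 2 * k < n → ∃ κ : ℝ, 0 < κ ∧ ∃ p₀ : ℕ, ∀ (p : ℕ) [Fact p.Prime], p₀ ≤ p →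
      ∀ (d : ℕ) (P : Fin n → Fin k → (ZMod p)[X]) (b : Fin k → ZMod p), (d : ℝ) ≤ (p : ℝ) ^ (δ / (50 * n)) →
      (∀ i j, (P i j).natDegree ≤ d) →
      (∀ i, ∀ (t : Fin k → ZMod p) (a c : ZMod p), ∑ j, C (t j) * P i j = C a * X + C c → t = 0) →
      ∀ (M : Fin n → ℤ) (L : Fin n → ℕ), (∀ j, (p : ℝ) ^ δ ≤ L j ∧ L j ≤ p) →
        (p : ℝ) ^ ((n : ℝ) / 2 + k + δ) ≤ ∏ j, (L j : ℝ) →
      (p : ℝ) ^ (-δ) * ((∏ j, (L j : ℝ)) / (p : ℝ) ^ k) ≤
        (Set.ncard {z : Fin n → ℤ | GoodPoint E κ δ p M L z ∧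
          ∀ j, ∑ i, (P i j).eval (z i : ZMod p) = b j} : ℝ)) ∧
    (3 ≤ n → ∀ m : ℕ, 2 ≤ m → ∃ κ : ℝ, 0 < κ ∧ ∃ p₀ : ℕ, ∀ (p : ℕ) [Fact p.Prime], p₀ ≤ p →
      ∀ (b : ZMod p) (H : ℕ), (p : ℝ) ^ (1 / 2 + 1 / (n : ℝ) + δ) ≤ H → H ≤ p →
      (p : ℝ) ^ (-δ) * ((H : ℝ) ^ n / p) ≤
        (Set.ncard {z : Fin n → ℤ | GoodPoint E κ δ p (fun _ => 0) (fun _ => H) z ∧
          ∑ i, (z i : ZMod p) ^ m = b} : ℝ)) := by
  refine ⟨fun k hk => main n k E hk δ hδ hδ1, fun hn m hm => ?_⟩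
  obtain ⟨κ, hκ, p₀, h⟩ := main n 1 E (by omega) δ hδ hδ1
  have hn0 : (0 : ℝ) < n := by exact_mod_cast (by omega : 0 < n)
  obtain ⟨p₁, h1⟩ := Run7.h914.ev_const (δ / (50 * n)) m (by positivity)
  refine ⟨κ, hκ, max p₀ p₁, ?_⟩
  intro p _ hpp b H hH hHp
  have hp : p.Prime := Fact.out
  have hp0 : (0 : ℝ) < p := by exact_mod_cast hp.pos
  have hp1 : (1 : ℝ) ≤ p := by exact_mod_cast hp.one_lt.le
  have key := h p ((le_max_left _ _).trans hpp) m (fun _ _ => X ^ m) (fun _ => b)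
    (h1 p ((le_max_right _ _).trans hpp)) (fun _ _ => natDegree_X_pow_le m) (by
      intro _ t a c h2
      rw [Fin.sum_univ_one] at h2
      have h3 := congrArg (fun q => q.coeff m) h2
      simp only [coeff_C_mul, coeff_X_pow, coeff_add, coeff_X, coeff_C] at h3
      rw [if_pos trivial, if_neg (by omega), if_neg (by omega), mul_one, mul_zero, add_zero] at h3
      funext j
      rw [Subsingleton.elim j 0]
      exact h3) (fun _ => 0) (fun _ => H) (fun _ => ⟨by
        refine le_trans (Real.rpow_le_rpow_of_exponent_le hp1 ?_) hH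
        have : 0 ≤ 1 / (n : ℝ) := by positivity
        linarith, hHp⟩) (by
      rw [Finset.prod_const, Finset.card_univ, Fintype.card_fin]
      have h2 : ((p : ℝ) ^ (1 / 2 + 1 / (n : ℝ) + δ)) ^ n ≤ (H : ℝ) ^ n :=
        pow_le_pow_left₀ (Real.rpow_nonneg hp0.le _) hH n
      refine le_trans ?_ h2
      rw [← Real.rpow_natCast _ n, ← Real.rpow_mul hp0.le]
      apply Real.rpow_le_rpow_of_exponent_le hp1
      have h3 : (1 / 2 + 1 / (n : ℝ) + δ) * n = n / 2 + 1 + δ * n := by field_simp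
      have h4 : (3 : ℝ) ≤ n := by exact_mod_cast hn
      rw [h3]
      push_cast
      nlinarith)
  rw [Finset.prod_const, Finset.card_univ, Fintype.card_fin, pow_one] at key
  refine key.trans ?_
  rw [Nat.cast_le]
  refine Set.ncard_le_ncard ?_ ?_
  · rintro z ⟨h2, h3⟩
    refine ⟨h2, ?_⟩
    have := h3 0
    simpa only [eval_pow, eval_X] using this
  · refine (Set.Finite.pi' (fun j => Set.finite_Ioc (0 : ℤ) (0 + H))).subset ?_
    intro z hz j
    exact hz.1.1 j

end Pool.Agent.Results.MP_b0c12c_nt.SeparatedSystems
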